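import Pool.Agent.Helper71.GPColor

set_option autoImplicit false

/-!
MP_dfca13_co: every finite planar point set with at most `l` points on a line can be coloured with
`O(max(sqrt n, l))` colours so that every colour class is in general position.
-/

namespace Pool.Agent.Results.MP_dfca13_co.MaxSqrtCollinear

/-- the Euclidean plane -/
abbrev Plane := EuclideanSpace ℝ (Fin 2)

/-- a subset of the plane is a line if it is a one-dimensional affine subspace -/
def IsLine (L : AffineSubspace ℝ Plane) : Prop :=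
  (L : Set Plane).Nonempty ∧ Module.finrank ℝ L.direction = 1

/-- every line contains at most `l` points of `P` -/
def AtMostCollinear (P : Finset Plane) (l : ℕ) : Prop :=
  ∀ L : AffineSubspace ℝ Plane, IsLine L → ((P : Set Plane) ∩ (L : Set Plane)).ncard ≤ l

/-- no three (distinct) points of `S` lie on a common line -/
def GeneralPosition (S : Set Plane) : Prop :=
  ∀ a ∈ S, ∀ b ∈ S, ∀ d ∈ S, a ≠ b → a ≠ d → b ≠ d →
    ¬ ∃ L : AffineSubspace ℝ Plane, IsLine L ∧ a ∈ L ∧ b ∈ L ∧ d ∈ L

/-- the least number of colours in a colouring of `P` all of whose classes are in general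
position -/
noncomputable def chiGP (P : Finset Plane) : ℕ :=
  sInf {k : ℕ | ∃ c : P → Fin k, ∀ i : Fin k,
    GeneralPosition {p : Plane | ∃ h : p ∈ P, c ⟨p, h⟩ = i}}

open Finset Pool.Agent.Helper71.GPColor

theorem isLine_span {x y : Plane} (h : x ≠ y) : IsLine (affineSpan ℝ ({x, y} : Set Plane)) := by
  refine ⟨⟨x, left_mem_affineSpan_pair ℝ x y⟩, ?_⟩
  rw [direction_affineSpan, vectorSpan_pair_rev]
  exact finrank_span_singleton (vsub_ne_zero.2 h.symm)

theorem exists_ne (x : Plane) : ∃ y : Plane, x ≠ y := by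
  obtain ⟨y, hy⟩ := _root_.exists_ne x
  exact ⟨y, hy.symm⟩

theorem card_le {P : Finset Plane} {l : ℕ} (h : AtMostCollinear P l) (T : Finset Plane)
    (hT : T ⊆ P) (hc : Collinear ℝ (T : Set Plane)) : T.card ≤ l := by
  classical
  have key : ∀ x y : Plane, x ≠ y → (T : Set Plane) ⊆ affineSpan ℝ ({x, y} : Set Plane) →
      T.card ≤ l := by
    intro x y hxy hsub
    refine le_trans ?_ (h _ (isLine_span hxy))
    rw [← Set.ncard_coe_finset T]
    refine Set.ncard_le_ncard (fun z hz => ⟨hT hz, hsub hz⟩) ?_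
    exact (P.finite_toSet).inter_of_left _
  by_cases h2 : T.card ≤ 1
  · rcases Nat.eq_zero_or_pos T.card with h0 | h0
    · omega
    · obtain ⟨x, hx⟩ := card_pos.1 h0
      obtain ⟨y, hy⟩ := exists_ne x
      refine key x y hy ?_
      intro z hz
      have : z = x := card_le_one.1 h2 z hz x hx
      rw [this]
      exact left_mem_affineSpan_pair ℝ x y
  · obtain ⟨x, hx, y, hy, hxy⟩ := one_lt_card.1 (by omega : 1 < T.card)
    refine key x y hxy ?_
    intro z hz
    exact hc.mem_affineSpan_of_mem_of_ne hx hy hz hxy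

theorem result : ∃ C : ℝ, 0 < C ∧ ∀ (P : Finset Plane) (l : ℕ), AtMostCollinear P l →
    (chiGP P : ℝ) ≤ C * max (Real.sqrt (P.card : ℝ)) (l : ℝ) := by
  classical
  obtain ⟨C0, s0, hC0, hs0, hW0⟩ := Pool.Agent.Helper60.GP.weighted
  set C := max C0 1 with hCdef
  have hC1 : 1 ≤ C := le_max_right _ _
  set s1 := max s0 245760 with hs1def
  have hW : WI C s1 := by
    intro s hs U hU hcol w hw
    obtain ⟨S, hS, hg, hle⟩ := hW0 s ((le_max_left _ _).trans hs) U hU hcol w hw
    refine ⟨S, hS, hg, hle.trans ?_⟩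
    have : 0 ≤ ∑ x ∈ S, w x := sum_nonneg fun x _ => hw x
    have hs' : 0 ≤ s := by
      have : (245760 : ℝ) ≤ s := (le_max_right _ _).trans hs
      linarith
    have : C0 * s ≤ C * s := mul_le_mul_of_nonneg_right (le_max_left _ _) hs'
    exact mul_le_mul_of_nonneg_right this ‹_›
  have hbig : ∀ s, s1 ≤ s → 2 * s ^ 4 ≤ Real.exp (s / 4) := by
    intro s hs
    have h1 : (245760 : ℝ) ≤ s := (le_max_right _ _).trans hs
    have h2 := Real.pow_div_factorial_le_exp (s / 4) (by linarith) 5
    refine le_trans ?_ h2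
    have : ((Nat.factorial 5 : ℕ) : ℝ) = 120 := by norm_num [Nat.factorial]
    rw [this]
    have h3 : 0 ≤ s ^ 4 := by positivity
    nlinarith
  have hs1' : 2 ≤ s1 := by
    have : (245760 : ℝ) ≤ s1 := le_max_right _ _
    linarith
  refine ⟨72 * C + s1, by linarith, fun P l hP => ?_⟩
  set s : ℝ := max (Real.sqrt (P.card : ℝ)) (l : ℝ) with hs
  by_cases hne : P.card = 0
  · have h0 : chiGP P = 0 := by
      apply Nat.eq_zero_of_le_zero
      apply Nat.sInf_le
      have hem : P = ∅ := card_eq_zero.1 hne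
      subst hem
      refine ⟨fun p => absurd p.2 (notMem_empty _), fun i => i.elim0⟩
    rw [h0]
    have : 0 ≤ s := le_max_of_le_left (Real.sqrt_nonneg _)
    push_cast
    have : (0:ℝ) ≤ 72 * C + s1 := by linarith
    positivity
  have hpos : 0 < s := lt_max_of_lt_left (Real.sqrt_pos.2 (by
    have : 0 < P.card := by omega
    exact_mod_cast this))
  obtain ⟨n, hn⟩ : ∃ n : ℕ, s ≤ 2 ^ n * s1 := by
    obtain ⟨n, hn⟩ := pow_unbounded_of_one_lt s (one_lt_two)
    refine ⟨n, hn.le.trans ?_⟩
    have : (0 : ℝ) < 2 ^ n := by positivity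
    nlinarith
  have hsq : (P.card : ℝ) ≤ s ^ 2 := by
    have h1 : Real.sqrt (P.card : ℝ) ≤ s := le_max_left _ _
    have h2 : Real.sqrt (P.card : ℝ) ^ 2 = P.card := Real.sq_sqrt (by positivity)
    rw [← h2]
    exact pow_le_pow_left₀ (Real.sqrt_nonneg _) h1 2
  obtain ⟨k, hk, c, hc1, hc2⟩ := main_rec hC1 hs1' hW hbig n _ hpos hn P hsq
    (fun T hT hc => le_max_of_le_right (by exact_mod_cast card_le hP T hT hc))
  refine le_trans ?_ hk
  norm_cast
  apply Nat.sInf_le
  refine ⟨fun p => ⟨c p.1, hc1 p.1 p.2⟩, fun i => ?_⟩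
  rintro a ⟨ha, hai⟩ b ⟨hb, hbi⟩ d ⟨hd, hdi⟩ hab had hbd ⟨L, hL, haL, hbL, hdL⟩
  have hai' : c a = i := congrArg Fin.val hai
  have hbi' : c b = i := congrArg Fin.val hbi
  have hdi' : c d = i := congrArg Fin.val hdi
  have hcoll : Collinear ℝ ({a, b, d} : Set Plane) := by
    rw [collinear_iff_finrank_le_one]
    rw [← hL.2]
    apply Submodule.finrank_mono
    rw [← direction_affineSpan]
    apply AffineSubspace.direction_le
    rw [affineSpan_le]
    rintro x (rfl | rfl | rfl)
    · exact haL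
    · exact hbL
    · exact hdL
  have h1 := hc2 i {a, b, d} (by
    intro x hx
    simp only [mem_insert, mem_singleton] at hx
    rw [mem_filter]
    rcases hx with rfl | rfl | rfl
    · exact ⟨ha, hai'⟩
    · exact ⟨hb, hbi'⟩
    · exact ⟨hd, hdi'⟩) (by simpa using hcoll)
  rw [card_eq_three.2 ⟨a, b, d, hab, had, hbd, rfl⟩] at h1
  omega

end Pool.Agent.Results.MP_dfca13_co.MaxSqrtCollinear
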